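import Pool.Agent.Helper2.NR.Main
import Pool.Graph.R_seed8.R463.EX6

/-!
# Rough 45-tuples with another rough number in the neighbourhood: an upper bound
-/

set_option autoImplicit false

open Finset Filter

namespace Pool.Agent.H62.Iso

open Pool.Agent.Q25.Arb
open Pool.Agent.R463.EX Pool.Agent.H373R2.T7 Pool.Agent.TH464.PO Pool.Agent.W123.RP Pool.Agent.W123.RU
open Pool.Agent.R463.PS Pool.Agent.R463.PP

/-- the sieve density of the shifted pattern -/
lemma dens (H : Finset ℕ) (D : ℕ) (hD : ∀ g ∈ H, g ≤ D) (hH : H.card = 45) (L y : ℕ) :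
    Vq (QH Qi (H.image (fun g => g + L))) y ≤ (2 ^ 45) ^ (D + 1) * (Vz y) ^ 45 := by
  classical
  have h0 : ∀ p ∈ pz y, 0 ≤ 1 - (nuB (QH Qi (H.image (fun g => g + L))) p : ℝ) / p := by
    intro p hp
    have hp' := (mem_pz.1 hp).2
    have h1 : nuB (QH Qi (H.image (fun g => g + L))) p ≤ p := by
      unfold nuB
      refine (card_filter_le _ _).trans ?_
      rw [card_range]
    have h2 : (nuB (QH Qi (H.image (fun g => g + L))) p : ℝ) / p ≤ 1 := by
      rw [div_le_one (by exact_mod_cast hp'.pos)]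
      exact_mod_cast h1
    linarith
  have h1 : ∀ p ∈ pz y, 1 - (nuB (QH Qi (H.image (fun g => g + L))) p : ℝ) / p ≤
      (if p ≤ D then (2 ^ 45 : ℝ) else 1) * (1 - 1 / (p : ℝ)) ^ 45 := by
    intro p hp
    have hp' := (mem_pz.1 hp).2
    have hpr : (2 : ℝ) ≤ p := by exact_mod_cast hp'.two_le
    split_ifs with hpD
    · have h2 : (0 : ℝ) ≤ (nuB (QH Qi (H.image (fun g => g + L))) p : ℝ) / p := by positivity
      have h3 : (1 : ℝ) / 2 ≤ 1 - 1 / (p : ℝ) := by
        have : 1 / (p : ℝ) ≤ 1 / 2 := one_div_le_one_div_of_le (by norm_num) hpr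
        linarith
      have h4 : (1 / 2 : ℝ) ^ 45 ≤ (1 - 1 / (p : ℝ)) ^ 45 := pow_le_pow_left₀ (by norm_num) h3 45
      have h5 : (2 ^ 45 : ℝ) * (1 / 2 : ℝ) ^ 45 = 1 := by
        rw [← mul_pow]; norm_num
      nlinarith
    · rw [one_mul, nuB_QH_Qi _ p hp']
      have e : ((H.image (fun g => g + L)).image (· % p)).card = 45 := by
        rw [card_image_of_injOn, card_image_of_injective _ (add_left_injective L), hH]
        intro a ha b hb hab
        rw [mem_coe, mem_image] at ha hb
        obtain ⟨a', ha', rfl⟩ := ha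
        obtain ⟨b', hb', rfl⟩ := hb
        have h2 : a' + L ≡ b' + L [MOD p] := hab
        have h3 : a' ≡ b' [MOD p] := Nat.ModEq.add_right_cancel' L h2
        have h4 := hD a' ha'
        have h5 := hD b' hb'
        have h6 := Nat.ModEq.eq_of_lt_of_lt h3 (by omega) (by omega)
        show a' + L = b' + L
        omega
      rw [e]
      have h2 := one_add_mul_le_pow (a := -(1 / (p : ℝ))) (by
        have : 1 / (p : ℝ) ≤ 1 / 2 := one_div_le_one_div_of_le (by norm_num) hpr
        linarith) 45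
      calc (1 : ℝ) - ((45 : ℕ) : ℝ) / p = 1 + ((45 : ℕ) : ℝ) * -(1 / (p : ℝ)) := by ring
        _ ≤ (1 + -(1 / (p : ℝ))) ^ 45 := h2
        _ = _ := by ring
  have h2 : ∏ p ∈ pz y, (if p ≤ D then (2 ^ 45 : ℝ) else 1) ≤ (2 ^ 45) ^ (D + 1) := by
    rw [prod_ite, prod_const_one, mul_one, prod_const]
    apply pow_le_pow_right₀ (by norm_num)
    calc ((pz y).filter (fun p => p ≤ D)).card ≤ (range (D + 1)).card := by
          apply card_le_card
          intro p hp
          rw [mem_filter] at hp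
          rw [mem_range]
          omega
      _ = D + 1 := card_range _
  have hV : 0 ≤ Vz y := by
    unfold Vz
    apply prod_nonneg
    intro p hp
    have hpr : (1 : ℝ) ≤ p := by exact_mod_cast (mem_pz.1 hp).2.one_le
    have : 1 / (p : ℝ) ≤ 1 := by rw [div_le_one (by linarith)]; exact hpr
    linarith
  calc Vq (QH Qi (H.image (fun g => g + L))) y
      ≤ ∏ p ∈ pz y, ((if p ≤ D then (2 ^ 45 : ℝ) else 1) * (1 - 1 / (p : ℝ)) ^ 45) := by
        unfold Vq
        exact prod_le_prod h0 h1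
    _ = (∏ p ∈ pz y, (if p ≤ D then (2 ^ 45 : ℝ) else 1)) * (Vz y) ^ 45 := by
        rw [prod_mul_distrib, prod_pow]; rfl
    _ ≤ _ := mul_le_mul_of_nonneg_right h2 (pow_nonneg hV 45)

/-- `n + H` is rough and there is another rough number in `(n - L, n + D + L]` -/
def Near (H : Finset ℕ) (r D L n : ℕ) : Prop :=
  RoughPattern H r n ∧ ∃ q : ℕ, (∀ p : ℕ, p.Prime → p ∣ q → (n : ℝ) ^ (1 / (r : ℝ)) < p) ∧
    n < q + L ∧ q ≤ n + D + L ∧ ∀ g ∈ H, q ≠ n + g

open Classical in
/-- the combinatorial bound -/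
lemma near_le (H : Finset ℕ) (D : ℕ) (r L X y : ℕ) (hr : 1 ≤ r)
    (hy : y = ⌊(X : ℝ) ^ (1 / (r : ℝ))⌋₊) (hLX : L + y + 1 ≤ X) :
    (N {n | Near H r D L n} X (3 * X) : ℝ) ≤
      ∑ n ∈ OmH Qi (H.image (fun g => g + L)) y (3 * X),
        ((NX Qi y (Icc 1 (2 * L + D) \ (H.image (fun g => g + L))) n).choose 1 : ℝ) := by
  have hyX : (y : ℝ) ≤ (X : ℝ) ^ (1 / (r : ℝ)) := by rw [hy]; exact Nat.floor_le (by positivity)
  have h1 : N {n | Near H r D L n} X (3 * X) ≤
      ((OmH Qi (H.image (fun g => g + L)) y (3 * X)).filter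
        (fun n => 1 ≤ NX Qi y (Icc 1 (2 * L + D) \ (H.image (fun g => g + L))) n)).card := by
    unfold N
    apply Finset.card_le_card_of_injOn (fun n => n - L)
    · intro n hn
      rw [mem_coe, mem_filter, mem_Ioc] at hn
      obtain ⟨⟨g1, g2⟩, hrough, q, hq, hq1, hq2, hq3⟩ := hn
      have hnr : (X : ℝ) ^ (1 / (r : ℝ)) ≤ (n : ℝ) ^ (1 / (r : ℝ)) :=
        Real.rpow_le_rpow (by positivity) (by exact_mod_cast g1.le) (by positivity)
      rw [mem_coe, mem_filter]
      constructor
      · unfold OmH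
        rw [mem_filter, mem_Icc]
        refine ⟨⟨?_, ?_⟩, ?_⟩
        · show 1 ≤ n - L
          omega
        · show n - L ≤ 3 * X
          omega
        rw [sf_QH]
        intro h hh
        rw [mem_image] at hh
        obtain ⟨g, hg, rfl⟩ := hh
        intro p hp hpd
        unfold Qi at hpd
        have e : n - L + (g + L) = n + g := by omega
        rw [e] at hpd
        have h2 := hrough g hg p (mem_pz.1 hp).2 hpd
        have h3 : (p : ℝ) ≤ y := by exact_mod_cast (mem_pz.1 hp).1
        linarith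
      · unfold NX
        rw [Nat.one_le_iff_ne_zero, ← Nat.pos_iff_ne_zero, card_pos]
        refine ⟨q + L - n, ?_⟩
        rw [mem_filter, Finset.mem_sdiff, mem_Icc, mem_image]
        refine ⟨⟨⟨by omega, by omega⟩, ?_⟩, ?_⟩
        · rintro ⟨g, hg, he⟩
          exact hq3 g hg (by omega)
        · have e : n - L + (q + L - n) = q := by omega
          rw [e]
          intro p hp hpd
          unfold Qi at hpd
          have h2 := hq p (mem_pz.1 hp).2 hpd
          have h3 : (p : ℝ) ≤ y := by exact_mod_cast (mem_pz.1 hp).1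
          linarith
    · intro a ha b hb hab
      rw [mem_coe, mem_filter, mem_Ioc] at ha hb
      simp only at hab
      omega
  calc (N {n | Near H r D L n} X (3 * X) : ℝ) ≤ (((OmH Qi (H.image (fun g => g + L)) y (3 * X)).filter
        (fun n => 1 ≤ NX Qi y (Icc 1 (2 * L + D) \ (H.image (fun g => g + L))) n)).card : ℝ) := by
        exact_mod_cast h1
    _ = ∑ n ∈ (OmH Qi (H.image (fun g => g + L)) y (3 * X)).filter
        (fun n => 1 ≤ NX Qi y (Icc 1 (2 * L + D) \ (H.image (fun g => g + L))) n), (1 : ℝ) := by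
        rw [sum_const, nsmul_eq_mul, mul_one]
    _ ≤ ∑ n ∈ (OmH Qi (H.image (fun g => g + L)) y (3 * X)).filter
        (fun n => 1 ≤ NX Qi y (Icc 1 (2 * L + D) \ (H.image (fun g => g + L))) n),
        ((NX Qi y (Icc 1 (2 * L + D) \ (H.image (fun g => g + L))) n).choose 1 : ℝ) := by
        apply sum_le_sum
        intro n hn
        rw [mem_filter] at hn
        rw [Nat.choose_one_right]
        exact_mod_cast hn.2
    _ ≤ _ := by
        apply sum_le_sum_of_subset_of_nonneg (filter_subset _ _)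
        intro n _ _
        exact Nat.cast_nonneg _

end Pool.Agent.H62.Iso
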