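import Pool.Agent.H62.Iso1

/-!
# Rough 45-tuples with another prime in the neighbourhood: the order of magnitude
-/

set_option autoImplicit false

open Finset Filter

namespace Pool.Agent.H62.Iso

open Pool.Agent.Q25.Arb
open Pool.Agent.R463.EX Pool.Agent.H373R2.T7 Pool.Agent.TH464.PO Pool.Agent.W123.RP Pool.Agent.W123.RU
open Pool.Agent.R463.PS Pool.Agent.R463.PP

lemma log_pow_ev (n : ℕ) (c : ℝ) (hc : 0 < c) : ∀ᶠ X : ℕ in atTop, Real.log X ^ n ≤ c * X := by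
  have h1 := (Real.isLittleO_pow_log_id_atTop (n := n)).bound hc
  filter_upwards [tendsto_natCast_atTop_atTop.eventually h1, eventually_ge_atTop 1] with X h2 hX
  have hX1 : (1 : ℝ) ≤ X := by exact_mod_cast hX
  have hl : 0 ≤ Real.log X := Real.log_nonneg hX1
  rw [Real.norm_of_nonneg (by positivity)] at h2
  simpa using h2

/-- **Upper bound for the rough patterns with another prime nearby.** -/
theorem near_bound (H : Finset ℕ) (D : ℕ) (hD : ∀ g ∈ H, g ≤ D) (hH : H.card = 45) :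
    ∃ r₀ : ℕ, ∀ r : ℕ, r₀ ≤ r → ∃ C : ℝ, 0 < C ∧ ∀ ε : ℝ, 0 < ε → ε ≤ 1 → ∀ᶠ X : ℕ in atTop,
      (N {n | Near H r D ⌊ε * Real.log X⌋₊ n} X (3 * X) : ℝ) ≤ C * ε * ((X : ℝ) / Real.log X ^ 45) := by
  classical
  obtain ⟨K0, y0, T0, η', hη', key⟩ := momentR 1 45 0 le_rfl 1 one_pos le_rfl (fun w => (Mw w : ℝ) + 2 * 45)
    (fun w => by positivity)
  refine ⟨max K0 2, fun r hr => ?_⟩
  have hrK : K0 ≤ r := (le_max_left _ _).trans hr
  have hr2 : 2 ≤ r := (le_max_right _ _).trans hr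
  obtain ⟨C1, hC1, hV⟩ := Vz_le r hr2
  obtain ⟨A, hA⟩ : ∃ A : ℝ, A = (2 ^ 45) ^ (D + 1) := ⟨_, rfl⟩
  have hA0 : 0 < A := by rw [hA]; positivity
  refine ⟨18 * A * C1 ^ 46 + 3, by positivity, fun ε hε hε1 => ?_⟩
  have hyt : Tendsto (fun X : ℕ => ⌊(X : ℝ) ^ (1 / (r : ℝ))⌋₊) atTop atTop := by
    apply tendsto_nat_floor_atTop.comp
    apply (tendsto_rpow_atTop (by positivity)).comp tendsto_natCast_atTop_atTop
  have hLt : Tendsto (fun X : ℕ => ε * Real.log X) atTop atTop :=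
    (Real.tendsto_log_atTop.comp tendsto_natCast_atTop_atTop).const_mul_atTop hε
  filter_upwards [hV, Pool.Agent.Y879.GL.level_ok r hr2, hyt.eventually_ge_atTop y0, hLt.eventually_ge_atTop (D + T0 + 1),
    log_pow_ev 92 (1 / 3) (by norm_num), log_pow_ev 1 (1 / 8) (by norm_num), eventually_ge_atTop 100]
    with X hVX hlev hy0 hL hlog92 hlog1 hX100
  obtain ⟨l1, l2, l3, l4, l5⟩ := hlev
  obtain ⟨y, hy⟩ : ∃ y, y = ⌊(X : ℝ) ^ (1 / (r : ℝ))⌋₊ := ⟨_, rfl⟩
  obtain ⟨L, hLd⟩ : ∃ L, L = ⌊ε * Real.log X⌋₊ := ⟨_, rfl⟩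
  rw [← hy] at hVX l1 l2 l3 l4 hy0
  rw [← hLd]
  have hX0 : (0 : ℝ) < X := by exact_mod_cast (by omega : 0 < X)
  have hX1 : (1 : ℝ) ≤ X := by exact_mod_cast (by omega : 1 ≤ X)
  have hlog : 0 < Real.log X := by linarith
  have hLle : (L : ℝ) ≤ ε * Real.log X := by rw [hLd]; exact Nat.floor_le (by positivity)
  have hLge : ε * Real.log X < L + 1 := by rw [hLd]; exact Nat.lt_floor_add_one _
  have hyle : (y : ℝ) ≤ (X : ℝ) ^ (1 / (r : ℝ)) := by rw [hy]; exact Nat.floor_le (by positivity)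
  have hyX : (y : ℝ) ≤ Real.sqrt X := by
    refine hyle.trans ?_
    rw [Real.sqrt_eq_rpow]
    apply Real.rpow_le_rpow_of_exponent_le hX1
    apply one_div_le_one_div_of_le (by norm_num)
    exact_mod_cast hr2
  have hsq : Real.sqrt X ≤ X / 8 := by
    rw [Real.sqrt_le_left (by positivity)]
    have : (100 : ℝ) ≤ X := by exact_mod_cast hX100
    nlinarith
  have hLX : L + y + 1 ≤ X := by
    have h1 : (L : ℝ) ≤ X / 8 := by
      refine hLle.trans ?_
      have h2 : ε * Real.log X ≤ 1 * Real.log X := mul_le_mul_of_nonneg_right hε1 hlog.le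
      rw [pow_one] at hlog1
      linarith
    have h3 : ((L + y + 1 : ℕ) : ℝ) ≤ X := by
      push_cast
      have : (100 : ℝ) ≤ X := by exact_mod_cast hX100
      linarith
    exact_mod_cast h3
  have hT : (L : ℝ) ≥ D + T0 := by linarith
  have hTn : D + T0 ≤ L := by exact_mod_cast hT
  have hyK : y ^ K0 ≤ 3 * X := by
    have h1 : y ^ K0 ≤ y ^ r := Nat.pow_le_pow_right (by omega) hrK
    have h2 : ((y ^ r : ℕ) : ℝ) ≤ X := by
      push_cast
      calc (y : ℝ) ^ r ≤ ((X : ℝ) ^ (1 / (r : ℝ))) ^ r := pow_le_pow_left₀ (by positivity) hyle r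
        _ = X := by
          rw [one_div]
          exact Real.rpow_inv_natCast_pow hX0.le (by omega)
    have h3 : y ^ r ≤ X := by exact_mod_cast h2
    omega
  refine (near_le H D r L X y (by omega) hy hLX).trans ?_
  obtain ⟨H', hH'⟩ : ∃ H', H' = H.image (fun g => g + L) := ⟨_, rfl⟩
  obtain ⟨T, hTd⟩ : ∃ T, T = 2 * L + D := ⟨_, rfl⟩
  have hcard : H'.card = 45 := by
    rw [hH', card_image_of_injective _ (add_left_injective L), hH]
  have hsub : H' ⊆ range (T + 1) := by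
    intro x hx
    rw [hH', mem_image] at hx
    obtain ⟨g, hg, rfl⟩ := hx
    have := hD g hg
    rw [mem_range]
    omega
  have hk := key (3 * X) y T hy0 hyK (by omega) Qi perB_Qi adm_Qi (by
    intro t ht
    rw [mem_Icc] at ht
    have e : (pz y).filter (fun p : ℕ => T < p ∧ CoG Qi p t) = ∅ := by
      rw [Finset.filter_eq_empty_iff]
      rintro p hp ⟨h1, m, h4, h5⟩
      unfold Qi at h4 h5
      have h6 : p ∣ t := (Nat.dvd_add_right h4).1 h5
      have := Nat.le_of_dvd (by omega) h6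
      omega
    rw [e, card_empty, Nat.cast_zero]
    positivity) H' hcard hsub (Icc 1 T \ H') sdiff_subset disjoint_sdiff (by
    intro w m
    have := windowR Qi 1 perB_Qi H' w m T
    rw [hcard] at this
    exact_mod_cast this)
  rw [← hH', ← hTd]
  simp only [zero_add, pow_one, Nat.factorial_one, Nat.cast_one, div_one, one_mul] at hk
  have hdens := dens H D hD hH L y
  rw [← hH', ← hA] at hdens
  rw [Vq_Qi] at hk
  change |_ - ((3 * X : ℕ) : ℝ) * Vq (QH Qi H') y * (((Icc 1 T \ H').card : ℝ) * Vz y)| ≤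
    ((3 * X : ℕ) : ℝ) * Vq (QH Qi H') y * ((T : ℝ) * Vz y) + T * √((3 * X : ℕ) : ℝ) at hk
  obtain ⟨S, hS⟩ : ∃ S : ℝ, S = ∑ n ∈ OmH Qi H' y (3 * X), ((NX Qi y (Icc 1 T \ H') n).choose 1 : ℝ) := ⟨_, rfl⟩
  rw [← hS] at hk ⊢
  have hVz0 : 0 ≤ Vz y := by
    unfold Vz
    apply prod_nonneg
    intro p hp
    have hpr : (1 : ℝ) ≤ p := by exact_mod_cast (mem_pz.1 hp).2.one_le
    have : 1 / (p : ℝ) ≤ 1 := by rw [div_le_one (by linarith)]; exact hpr
    linarith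
  have hVQ0 := Vq_nonneg (QH Qi H') y
  have hcT : ((Icc 1 T \ H').card : ℝ) ≤ T := by
    have := card_le_card (sdiff_subset : Icc 1 T \ H' ⊆ Icc 1 T)
    rw [Nat.card_Icc, Nat.add_sub_cancel] at this
    exact_mod_cast this
  have hTle : (T : ℝ) ≤ 3 * (ε * Real.log X) := by
    rw [hTd]
    push_cast
    have h1 : (D : ℝ) ≤ ε * Real.log X := by
      have : (0 : ℝ) ≤ T0 := Nat.cast_nonneg _
      linarith
    linarith
  have hY : ((3 * X : ℕ) : ℝ) = 3 * X := by push_cast; ring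
  rw [hY] at hk
  have hT0' : (0 : ℝ) ≤ T := Nat.cast_nonneg _
  have h1 : S ≤ 2 * (3 * X * Vq (QH Qi H') y * (T * Vz y)) + T * √(3 * (X : ℝ)) := by
    have h2 := (abs_le.1 hk).2
    have h3 : 3 * (X : ℝ) * Vq (QH Qi H') y * (((Icc 1 T \ H').card : ℝ) * Vz y) ≤
      3 * X * Vq (QH Qi H') y * (T * Vz y) := by gcongr
    linarith
  have h2 : 3 * (X : ℝ) * Vq (QH Qi H') y * (T * Vz y) ≤
      9 * A * C1 ^ 46 * ε * ((X : ℝ) / Real.log X ^ 45) := by
    have h3 : Vz y ^ 46 ≤ (C1 / Real.log X) ^ 46 := pow_le_pow_left₀ hVz0 hVX 46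
    calc 3 * (X : ℝ) * Vq (QH Qi H') y * (T * Vz y) ≤
        3 * (X : ℝ) * (A * Vz y ^ 45) * ((3 * (ε * Real.log X)) * Vz y) := by gcongr
      _ = 9 * A * ε * X * Real.log X * Vz y ^ 46 := by ring
      _ ≤ 9 * A * ε * X * Real.log X * (C1 / Real.log X) ^ 46 := by gcongr
      _ = 9 * A * C1 ^ 46 * ε * ((X : ℝ) / Real.log X ^ 45) := by
        rw [div_pow]
        field_simp
  have h3 : √(3 * (X : ℝ)) * Real.log X ^ 46 ≤ X := by
    have e : √(3 * (X : ℝ)) * Real.log X ^ 46 = √(3 * (X : ℝ) * Real.log X ^ 92) := by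
      rw [show Real.log X ^ 92 = (Real.log X ^ 46) ^ 2 by ring,
        Real.sqrt_mul (by positivity : (0 : ℝ) ≤ 3 * (X : ℝ)) ((Real.log X ^ 46) ^ 2),
        Real.sqrt_sq (by positivity)]
    rw [e, Real.sqrt_le_left hX0.le]
    have : 3 * (X : ℝ) * Real.log X ^ 92 ≤ 3 * X * (1 / 3 * X) := by gcongr
    calc _ ≤ _ := this
      _ = _ := by ring
  have h4 : T * √(3 * (X : ℝ)) ≤ 3 * ε * ((X : ℝ) / Real.log X ^ 45) := by
    have h5 : √(3 * (X : ℝ)) * Real.log X ≤ X / Real.log X ^ 45 := by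
      rw [le_div_iff₀ (by positivity)]
      calc √(3 * (X : ℝ)) * Real.log X * Real.log X ^ 45 = √(3 * (X : ℝ)) * Real.log X ^ 46 := by ring
        _ ≤ (X : ℝ) := h3
    calc T * √(3 * (X : ℝ)) ≤ 3 * (ε * Real.log X) * √(3 * (X : ℝ)) := by gcongr
      _ = 3 * ε * (√(3 * (X : ℝ)) * Real.log X) := by ring
      _ ≤ _ := by gcongr
  calc S ≤ _ := h1
    _ ≤ 2 * (9 * A * C1 ^ 46 * ε * ((X : ℝ) / Real.log X ^ 45)) + 3 * ε * ((X : ℝ) / Real.log X ^ 45) := by
      linarith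
    _ = _ := by ring

end Pool.Agent.H62.Iso
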