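import Pool.Agent.H62.Iso2

/-!
# Isolated prime patterns in every admissible 45-tuple
-/

set_option autoImplicit false

open Finset Filter

namespace Pool.Agent.H62.Iso

open Pool.Agent.Q25.Arb
open Pool.Agent.Helper2.NR
open Pool.Agent.H95R2.BG (Admissible)

/-- All `n + g`, `g ∈ H`, have no prime factor `≤ n ^ (1 / r)`, at least two of them are prime, and every other integer
`q` in the interval `(n - Δ, n + D + Δ)` has a prime factor `≤ n ^ (1 / r)`. -/
def IsoG (H : Finset ℕ) (D r : ℕ) (Δ : ℝ) (n : ℕ) : Prop :=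
  (∀ g ∈ H, ∀ p : ℕ, p.Prime → p ∣ n + g → (n : ℝ) ^ (1 / (r : ℝ)) < p) ∧
  (∃ g ∈ H, ∃ g' ∈ H, g < g' ∧ (n + g).Prime ∧ (n + g').Prime) ∧
  ∀ q : ℕ, (n : ℝ) - Δ < q → (q : ℝ) < n + D + Δ → (∀ g ∈ H, q ≠ n + g) →
    ∃ p : ℕ, p.Prime ∧ p ∣ q ∧ (p : ℝ) ≤ (n : ℝ) ^ (1 / (r : ℝ))

lemma frac_nonneg (X : ℕ) : 0 ≤ (X : ℝ) / Real.log X ^ 45 := by
  rcases Nat.eq_zero_or_pos X with h | h
  · rw [h]; simp
  · have h1 : 0 ≤ Real.log X := Real.log_nonneg (by exact_mod_cast h)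
    exact div_nonneg (Nat.cast_nonneg _) (pow_nonneg h1 45)

lemma frac_pos {X : ℕ} (hX : 0 < X) (hl : 0 < Real.log X) {c : ℝ} (hc : 0 < c) :
    0 < c / 2 ^ 45 * ((X : ℝ) / Real.log X ^ 45) := by
  have h1 : (0 : ℝ) < X := by exact_mod_cast hX
  exact mul_pos (div_pos hc (by norm_num)) (div_pos h1 (pow_pos hl 45))

open Classical in
theorem isoG_count (h : Fin 45 → ℕ) (hadm : Admissible h) (D : ℕ) (hDD : ∀ i, h i ≤ D) :
    ∃ (r : ℕ) (c ε : ℝ), 2 ≤ r ∧ 0 < c ∧ 0 < ε ∧ ∀ᶠ X : ℕ in atTop, c * ((X : ℝ) / Real.log X ^ 45) ≤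
      (((Ioc X (3 * X)).filter (fun n => IsoG (univ.image h) D r (ε * Real.log X) n)).card : ℝ) := by
  obtain ⟨r₀, h₀⟩ := count_all h hadm
  have hD : ∀ g ∈ univ.image h, g ≤ D := by
    intro g hg
    rw [mem_image] at hg
    obtain ⟨i, _, rfl⟩ := hg
    exact hDD i
  have hH := card_HH hadm.1
  obtain ⟨r₁, h₁⟩ := near_bound (univ.image h) D hD hH
  obtain ⟨r, hr⟩ : ∃ r, r = max (max r₀ r₁) 2 := ⟨_, rfl⟩
  obtain ⟨c, hc, hX⟩ := h₀ r (by omega)
  obtain ⟨C, hC, hN⟩ := h₁ r (by omega)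
  obtain ⟨ε, hε⟩ : ∃ ε : ℝ, ε = min 1 (c / (2 * C)) := ⟨_, rfl⟩
  have hε0 : 0 < ε := by rw [hε]; positivity
  have hε1 : ε ≤ 1 := by rw [hε]; exact min_le_left _ _
  have hεc : C * ε ≤ c / 2 := by
    have : ε ≤ c / (2 * C) := by rw [hε]; exact min_le_right _ _
    calc C * ε ≤ C * (c / (2 * C)) := mul_le_mul_of_nonneg_left this hC.le
      _ = c / 2 := by field_simp
  refine ⟨r, c / 2, ε / 2, by omega, by positivity, by positivity, ?_⟩
  have hLt : Tendsto (fun X : ℕ => ε * Real.log X) atTop atTop :=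
    (Real.tendsto_log_atTop.comp tendsto_natCast_atTop_atTop).const_mul_atTop hε0
  filter_upwards [hX, hN ε hε0 hε1, hLt.eventually_ge_atTop 2] with X h2 h3 h4
  obtain ⟨L, hL⟩ : ∃ L, L = ⌊ε * Real.log X⌋₊ := ⟨_, rfl⟩
  rw [← hL] at h3
  have hLge : ε * Real.log X < L + 1 := by rw [hL]; exact Nat.lt_floor_add_one _
  have hΔ : ε / 2 * Real.log X ≤ L := by linarith
  have h0 : 0 ≤ (X : ℝ) / Real.log X ^ 45 := frac_nonneg X
  have h5 : N (PatU h r) X (3 * X) ≤ N {n | Near (univ.image h) r D L n} X (3 * X) +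
      ((Ioc X (3 * X)).filter (fun n => IsoG (univ.image h) D r (ε / 2 * Real.log X) n)).card := by
    unfold N
    refine le_trans (card_le_card ?_) (card_union_le _ _)
    intro n hn
    rw [mem_filter] at hn
    rw [mem_union, mem_filter, mem_filter]
    obtain ⟨hn1, i, j, hij, hp1, hp2, _, hrough⟩ := hn
    by_cases hnear : Near (univ.image h) r D L n
    · exact Or.inl ⟨hn1, hnear⟩
    · right
      refine ⟨hn1, hrough, ⟨h i, mem_image_of_mem _ (mem_univ _), h j, mem_image_of_mem _ (mem_univ _),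
        hij, hp1, hp2⟩, ?_⟩
      intro q hq1 hq2 hq3
      by_contra hcon
      push Not at hcon
      apply hnear
      refine ⟨hrough, q, fun p hp hpq => hcon p hp hpq, ?_, ?_, hq3⟩
      · have : (n : ℝ) < q + L := by linarith
        exact_mod_cast this
      · have : (q : ℝ) < ((n + D + L : ℕ) : ℝ) := by push_cast; linarith
        have := Nat.cast_lt.1 this
        omega
  have h7 : (N (PatU h r) X (3 * X) : ℝ) ≤ N {n | Near (univ.image h) r D L n} X (3 * X) +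
      (((Ioc X (3 * X)).filter (fun n => IsoG (univ.image h) D r (ε / 2 * Real.log X) n)).card : ℝ) := by
    exact_mod_cast h5
  have h8 : C * ε * ((X : ℝ) / Real.log X ^ 45) ≤ c / 2 * ((X : ℝ) / Real.log X ^ 45) :=
    mul_le_mul_of_nonneg_right hεc h0
  linarith

/-- **One fixed exact prime pattern.** -/
theorem pattern (h : Fin 45 → ℕ) (hadm : Admissible h) (D : ℕ) (hDD : ∀ i, h i ≤ D) :
    ∃ (S : Finset ℕ) (c ε : ℝ), S ⊆ univ.image h ∧ 2 ≤ S.card ∧ 0 < c ∧ 0 < ε ∧ ∃ᶠ X : ℕ in atTop,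
      c * ((X : ℝ) / Real.log X ^ 45) ≤
      (Set.ncard {n : ℕ | X < n ∧ n ≤ 3 * X ∧ ∀ q : ℕ, (n : ℝ) - ε * Real.log X < q →
        (q : ℝ) < n + D + ε * Real.log X → (q.Prime ↔ ∃ s ∈ S, q = n + s)} : ℝ) := by
  classical
  obtain ⟨r, c, ε, hr, hc, hε, hX'⟩ := isoG_count h hadm D hDD
  obtain ⟨H, hH⟩ : ∃ H, H = univ.image h := ⟨_, rfl⟩
  rw [← hH] at hX' ⊢
  have hcard : H.card = 45 := by rw [hH]; exact card_HH hadm.1
  have hlogt : Tendsto (fun X : ℕ => Real.log X) atTop atTop := Real.tendsto_log_atTop.comp tendsto_natCast_atTop_atTop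
  have hbig : ∀ᶠ X : ℕ in atTop, ∀ n : ℕ, X < n → (n : ℝ) ^ (1 / (r : ℝ)) < n - ε * Real.log X := by
    filter_upwards [log_pow_ev 1 (1 / (4 * ε)) (by positivity), eventually_ge_atTop 212]
      with X hlX hX1 n hn
    have hnX : (X : ℝ) < n := by exact_mod_cast hn
    have hX212 : (212 : ℝ) ≤ X := by exact_mod_cast hX1
    have h1 : (n : ℝ) ^ (1 / (r : ℝ)) ≤ Real.sqrt n := by
      rw [Real.sqrt_eq_rpow]
      apply Real.rpow_le_rpow_of_exponent_le (by linarith)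
      apply one_div_le_one_div_of_le (by norm_num)
      exact_mod_cast hr
    have h2 : Real.sqrt n ≤ n / 2 := by
      rw [Real.sqrt_le_left (by positivity)]
      nlinarith
    have h3 : ε * Real.log X ≤ X / 4 := by
      rw [pow_one] at hlX
      calc ε * Real.log X ≤ ε * (1 / (4 * ε) * X) := by gcongr
        _ = X / 4 := by field_simp
    linarith
  by_contra hcon
  have h1 : ∀ S ∈ H.powerset.filter (fun S => 2 ≤ S.card), ∀ᶠ X : ℕ in atTop,
      (Set.ncard {n : ℕ | X < n ∧ n ≤ 3 * X ∧ ∀ q : ℕ, (n : ℝ) - ε * Real.log X < q →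
      (q : ℝ) < n + D + ε * Real.log X → (q.Prime ↔ ∃ s ∈ S, q = n + s)} : ℝ) <
        c / 2 ^ 45 * ((X : ℝ) / Real.log X ^ 45) := by
    intro S hS
    rw [mem_filter, mem_powerset] at hS
    have h2 : ¬ ∃ᶠ X : ℕ in atTop, c / 2 ^ 45 * ((X : ℝ) / Real.log X ^ 45) ≤
      (Set.ncard {n : ℕ | X < n ∧ n ≤ 3 * X ∧ ∀ q : ℕ, (n : ℝ) - ε * Real.log X < q →
      (q : ℝ) < n + D + ε * Real.log X → (q.Prime ↔ ∃ s ∈ S, q = n + s)} : ℝ) :=
      fun h => hcon ⟨S, c / 2 ^ 45, ε, hS.1, hS.2, by positivity, hε, h⟩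
    rw [not_frequently] at h2
    filter_upwards [h2] with X h3
    exact not_le.1 h3
  have h2 := (Finset.eventually_all _).2 h1
  obtain ⟨X, h3, h4, h5, h6, hbX⟩ := (h2.and (hX'.and ((hlogt.eventually_ge_atTop 1).and
    ((eventually_ge_atTop 212).and hbig)))).exists
  obtain ⟨F, hF⟩ : ∃ F, F = (Ioc X (3 * X)).filter (fun n => IsoG H D r (ε * Real.log X) n) := ⟨_, rfl⟩
  rw [← hF] at h4
  have hmap : ∀ n ∈ F, (H.filter (fun g => (n + g).Prime)) ∈ H.powerset.filter (fun S => 2 ≤ S.card) := by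
    intro n hn
    rw [hF, mem_filter] at hn
    rw [mem_filter, mem_powerset]
    refine ⟨filter_subset _ _, ?_⟩
    obtain ⟨g, hg, g', hg', hlt, hp, hp'⟩ := hn.2.2.1
    have : ({g, g'} : Finset ℕ) ⊆ H.filter (fun g => (n + g).Prime) := by
      intro x hx
      rw [mem_insert, mem_singleton] at hx
      rw [mem_filter]
      rcases hx with rfl | rfl
      · exact ⟨hg, hp⟩
      · exact ⟨hg', hp'⟩
    have h7 := card_le_card this
    rw [card_pair (by omega)] at h7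
    exact h7
  have hsum := card_eq_sum_card_fiberwise hmap
  have hfib : ∀ S ∈ H.powerset.filter (fun S => 2 ≤ S.card),
      ((F.filter (fun n => H.filter (fun g => (n + g).Prime) = S)).card : ℝ) ≤
        c / 2 ^ 45 * ((X : ℝ) / Real.log X ^ 45) := by
    intro S hS
    refine le_trans ?_ (h3 S hS).le
    rw [← Set.ncard_coe_finset]
    apply Nat.cast_le.2
    apply Set.ncard_le_ncard
    · intro n hn
      rw [mem_coe, mem_filter, hF, mem_filter, mem_Ioc] at hn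
      obtain ⟨⟨⟨g1, g2⟩, g3⟩, g4⟩ := hn
      refine ⟨g1, g2, fun q hq1 hq2 => ⟨fun hq => ?_, ?_⟩⟩
      · by_contra hq3
        push Not at hq3
        have hqH : ∀ g ∈ H, q ≠ n + g := by
          rintro g hg rfl
          exact hq3 g (by rw [← g4, mem_filter]; exact ⟨hg, hq⟩) rfl
        obtain ⟨p, hp, hpq, hle⟩ := g3.2.2 q hq1 hq2 hqH
        rw [Nat.prime_dvd_prime_iff_eq hp hq] at hpq
        rw [hpq] at hle
        have h11 := hbX n g1
        linarith
      · rintro ⟨s, hs, rfl⟩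
        rw [← g4, mem_filter] at hs
        exact hs.2
    · exact (Set.finite_Iic (3 * X)).subset fun n hn => hn.2.1
  have hcardle : ((H.powerset.filter (fun S => 2 ≤ S.card)).card : ℝ) < 2 ^ 45 := by
    have h7 : (H.powerset.filter (fun S => 2 ≤ S.card)) ⊂ H.powerset := by
      rw [Finset.filter_ssubset]
      exact ⟨∅, empty_mem_powerset H, by simp⟩
    have h8 := card_lt_card h7
    rw [card_powerset, hcard] at h8
    exact_mod_cast h8
  have h7 : (F.card : ℝ) ≤ (H.powerset.filter (fun S => 2 ≤ S.card)).card *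
      (c / 2 ^ 45 * ((X : ℝ) / Real.log X ^ 45)) := by
    rw [hsum]
    push_cast
    refine (Finset.sum_le_sum hfib).trans ?_
    rw [sum_const, nsmul_eq_mul]
  have h8 : 0 < c / 2 ^ 45 * ((X : ℝ) / Real.log X ^ 45) := frac_pos (by omega) (by linarith) hc
  have h9 : (F.card : ℝ) < 2 ^ 45 * (c / 2 ^ 45 * ((X : ℝ) / Real.log X ^ 45)) :=
    h7.trans_lt (mul_lt_mul_of_pos_right hcardle h8)
  have h10 : 2 ^ 45 * (c / 2 ^ 45 * ((X : ℝ) / Real.log X ^ 45)) = c * ((X : ℝ) / Real.log X ^ 45) := by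
    field_simp
  linarith

end Pool.Agent.H62.Iso
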